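import Pool.Agent.H123.LP.Main
import Pool.Agent.H123.LP.Emb

/-!
# The longest paths of a connected `P₅`-free graph have a common vertex

Let `G` be a finite connected graph without an induced path on five vertices. Then some vertex lies on
all longest paths of `G`. This answers Q2.

Proof. For a longest path `Q` and a component `C` of `G - Q` call the components of `G - N(C)` other
than `C` the parts. Choose `(Q, C)` so that `|N[C]|` is maximal. Let `D` be a longest path of
`G - N[C]`, say with `ω` vertices, in the part `E`. Among the vertices of `N(C)` with a neighbour in
`E` choose `a` with neighbours in as many vertices' parts as possible (the union `W` of the touched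
parts is largest), and then with neighbours in as many segments of `Q - N(C)` as possible. Suppose
that a longest path `P` misses `a`, and let `C'` be the component of `G - P` with `a ∈ C'`. The parts
touched by `s ∈ N(C)` not adjacent to `a` are touched by `a`, because the graph is `P₅`-free.

* Suppose that `a` has a non-neighbour in `C`. Then `a` is complete to `W`. Vertices of `P` in `W` are
  surrounded on `P` by vertices `s ∈ N(C)` without neighbours in `C'`, and these are surrounded on `Q`
  by vertices of `P` in `W`; so there are none, and `W ⊆ C'`. Let `B` be the initial part of `P`
  before its first vertex in `N(C) ∪ (C ∩ N(a))`. This vertex has a neighbour in `W` or is adjacent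
  to `a`, so that `|B| ≥ ω + 1`. So `B` is not in a part, and `B` is in a component of `C - N(a)`.
  Some `c₁ ∈ C ∩ N(a)` has a neighbour in this component and is then complete to it. So each vertex
  of `N(C)` is followed by a path in `C` with `|B| + 1 ≥ ω + 2` vertices, and the first segment of
  `Q` has at least `ω + 2` vertices; but it is a path in a part.
* Suppose that `a` is complete to `C`. Then for `s ∈ N(C)` not adjacent to `a` both segments of `Q`
  next to `s` are touched by `a`, so that `a` has at least `|N(C)| + 1` neighbours on `Q`, and
  `|N[C']| ≥ |N[a]| ≥ |C| + |N(C)| + 2 > |N[C]|`, a contradiction.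
-/

set_option autoImplicit false

namespace Pool.Agent.Results.MP_feab4e_co.PFiveFree

/-- **Theorem.** Let `G` be a finite connected graph without an induced path on five vertices. Then
there is a vertex `a` which lies on every path `P` of `G` of maximum length. -/
theorem result {V : Type*} [Finite V] (G : SimpleGraph V) (hG : G.Connected)
    (h5 : IsEmpty (SimpleGraph.pathGraph 5 ↪g G)) :
    ∃ a : V, ∀ (u v : V) (P : G.Walk u v), P.IsPath →
      (∀ (u' v' : V) (R : G.Walk u' v'), R.IsPath → R.length ≤ P.length) → a ∈ P.support := by
  haveI := Fintype.ofFinite V
  obtain ⟨a, h⟩ := Pool.Agent.H123.LP.common hG (Pool.Agent.H123.LP.noP5 h5)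
  exact ⟨a, fun u v P hP hmax => h _ (Pool.Agent.H123.LP.IsLongest.longest ⟨hP, hmax⟩)⟩

end Pool.Agent.Results.MP_feab4e_co.PFiveFree
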